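import Pool.Agent.H72.GP.Targets2
import Pool.Agent.H13.PSV.PR2

/-!
# Choice of the parameters (rows PR2 and PR22 of the boards gpo / Targets2, MP_3cf473_nt), helper85
Port of `Pool.Agent.H13.PSV.PR2`, for an arbitrary condition on the tuple.
-/

set_option autoImplicit false

open Polynomial Finset

namespace Pool.Agent.H85.GP

open Pool.Agent.H72.GP
open Pool.Agent.H85.PS (II MM)
open Pool.Agent.H13.PSV (const_of_small exists_exp)

theorem pr2_gen (s D : ℕ) (Cond : (Fin s → Bool) → (Fin s → ℤ) → (Fin s → ℤ) → Prop)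
    (hPR : ∀ q0 : ℕ, 2 ≤ q0 → ∃ c : ℕ, 1 ≤ c ∧ ∀ (n N B : ℕ) (κ : Fin s → Bool)
      (x y : Fin s → ℤ), 1 ≤ n → 1 ≤ B → 8 * B < N →
      Cond κ x y → (∀ k, |x k| ≤ B ∧ |y k| ≤ B) →
      MM s D * MM s D * (2 * s) + MM s D < (q0 - 1) * n →
      ∀ (H : ℝ) (P : MvPolynomial (Fin s) ℤ),
      1 ≤ H → P ≠ 0 → P.totalDegree ≤ D → (∀ m : Fin s →₀ ℕ, |((P.coeff m : ℤ) : ℝ)| ≤ H) →
      1 ≤ ((MM s D).factorial : ℝ) * (SS s D q0 c n N B ^ (MM s D - 1) *
        ‖MvPolynomial.aeval (fun k => ((vG κ x y N k : ℝ) : ℂ)) P‖ +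
        MM s D * H * SS s D q0 c n N B ^ (MM s D - 2) * EE s D q0 c n N B)) :
    ∃ (δ : ℝ) (N₁ : ℕ) (C : ℝ), 0 < δ ∧ 0 < C ∧
      ∀ N : ℕ, N₁ ≤ N → ∀ (κ : Fin s → Bool) (x y : Fin s → ℤ), Cond κ x y →
      (∀ k, |((x k : ℤ) : ℝ)| ≤ (N : ℝ) ^ δ ∧ |((y k : ℤ) : ℝ)| ≤ (N : ℝ) ^ δ) →
      ∀ H : ℝ, (N : ℝ) ≤ H → ∀ P : MvPolynomial (Fin s) ℤ, P ≠ 0 → P.totalDegree ≤ D →
      (∀ m : Fin s →₀ ℕ, |((P.coeff m : ℤ) : ℝ)| ≤ H) →
      1 ≤ H ^ C * ‖MvPolynomial.aeval (fun k => ((vG κ x y N k : ℝ) : ℂ)) P‖ := by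
  by_cases hM : MM s D < 2
  · refine ⟨1, 1, 1, one_pos, one_pos, ?_⟩
    intro N hN κ x y _ _ H hH P hP hdeg _
    obtain ⟨a, rfl⟩ := const_of_small hM P hdeg
    have ha : a ≠ 0 := by
      rintro rfl
      exact hP (map_zero _)
    have hN1 : (1 : ℝ) ≤ N := by exact_mod_cast hN
    have h1 : (1 : ℝ) ≤ ‖((a : ℤ) : ℂ)‖ := by
      rw [Complex.norm_intCast]
      exact_mod_cast Int.one_le_abs ha
    have h2 : MvPolynomial.aeval (fun k => ((vG κ x y N k : ℝ) : ℂ))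
        (MvPolynomial.C a : MvPolynomial (Fin s) ℤ) = ((a : ℤ) : ℂ) := by
      rw [MvPolynomial.aeval_C]
      rfl
    rw [h2, Real.rpow_one]
    exact one_le_mul_of_one_le_of_one_le (by linarith) h1
  · rw [not_lt] at hM
    obtain ⟨m, hm⟩ : ∃ m, MM s D = m + 2 := ⟨MM s D - 2, by omega⟩
    set q0 : ℕ := 2 * s * (m + 1) + 4 with hq0
    obtain ⟨c, hc1, hPR⟩ := hPR q0 (by omega)
    set c5 : ℕ := ((m + 1) * (2 * s) + 1) * c3 s D with hc5
    set c8 : ℕ := c5 + 1 + (MM s D * MM s D * (2 * s) + MM s D + 1) with hc8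
    set a : ℕ := (m + 1) * (q0 + 2 * s) + 1 with ha
    set b' : ℕ := 1 + (m + 1) * (2 * s * c3 s D) with hb'
    set F : ℕ := (MM s D).factorial with hF
    have hFpos : 0 < F := Nat.factorial_pos _
    set L : ℕ := 4 * c * (m + 2) with hL
    have hLpos : 0 < L := by positivity
    refine ⟨1 / (L : ℝ), 65 + c ^ L + 2 * F * (m + 2), ((a + (a + a * c8 + b') : ℕ) : ℝ) ,
      by positivity, by positivity, ?_⟩
    intro N hN κ x y hCond hbδ H hH P hP hdeg hcoef
    have hN65 : 65 ≤ N := by omega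
    have hNc : c ^ L ≤ N := by omega
    have hNF : 2 * F * (m + 2) ≤ N := by omega
    have hN0 : (0 : ℝ) < N := by
      have : 0 < N := by omega
      exact_mod_cast this
    have hN1 : (1 : ℝ) ≤ N := by
      have : 1 ≤ N := by omega
      exact_mod_cast this
    set B : ℕ := ⌊(N : ℝ) ^ (1 / (L : ℝ))⌋₊ with hB
    have hNδ1 : (1 : ℝ) ≤ (N : ℝ) ^ (1 / (L : ℝ)) := Real.one_le_rpow hN1 (by positivity)
    have hB1 : 1 ≤ B := Nat.le_floor (by exact_mod_cast hNδ1)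
    have hBle : (B : ℝ) ≤ (N : ℝ) ^ (1 / (L : ℝ)) := Nat.floor_le (by positivity)
    have hBL' : (B : ℝ) ^ L ≤ N := by
      calc (B : ℝ) ^ L ≤ ((N : ℝ) ^ (1 / (L : ℝ))) ^ L := pow_le_pow_left₀ (by positivity) hBle L
        _ = N := by
          rw [← Real.rpow_natCast, ← Real.rpow_mul hN0.le, one_div,
            inv_mul_cancel₀ (by positivity), Real.rpow_one]
    have hBL : B ^ L ≤ N := by exact_mod_cast hBL'
    have habs : ∀ z : ℤ, |(z : ℝ)| ≤ (N : ℝ) ^ (1 / (L : ℝ)) → |z| ≤ B := by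
      intro z hz
      have h1 : z.natAbs ≤ B := by
        apply Nat.le_floor
        rw [Nat.cast_natAbs]
        exact_mod_cast hz
      rw [Int.abs_eq_natAbs]
      exact_mod_cast h1
    have hbB : ∀ k, |x k| ≤ B ∧ |y k| ≤ B := fun k => ⟨habs _ (hbδ k).1, habs _ (hbδ k).2⟩
    -- `8 B < N`
    have h4B : 8 * B < N := by
      by_cases h5 : B ≤ 8
      · omega
      · have h6 : B ^ 2 ≤ B ^ L := Nat.pow_le_pow_right hB1 (by
          rw [hL]
          nlinarith)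
        nlinarith
    -- `(c B) ^ (c (m + 1)) ≤ N`
    have hcB : (c * B) ^ (c * (m + 1)) ≤ N := by
      have h1 : (c * B) ^ L ≤ N ^ 2 := by
        rw [mul_pow, pow_two]
        exact Nat.mul_le_mul hNc hBL
      have h2 : (c * B) ^ L = ((c * B) ^ (2 * c * (m + 2))) ^ 2 := by
        rw [← pow_mul]
        congr 1
        rw [hL]
        ring
      rw [h2] at h1
      have h3 : (c * B) ^ (2 * c * (m + 2)) ≤ N := (Nat.pow_le_pow_iff_left (by norm_num)).1 h1
      refine le_trans (Nat.pow_le_pow_right (Nat.mul_pos hc1 hB1) ?_) h3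
      nlinarith
    -- choice of `n`
    obtain ⟨k, hk1, hk2⟩ := exists_exp (show 2 ≤ N by omega) hH
    set n : ℕ := k + 1 + c8 with hn
    have hn1 : 1 ≤ n := by omega
    have hnM : MM s D * MM s D * (2 * s) + MM s D < (q0 - 1) * n := by
      have h1 : 1 ≤ q0 - 1 := by omega
      have h2 : 1 * n ≤ (q0 - 1) * n := Nat.mul_le_mul_right n h1
      omega
    have hH1 : 1 ≤ H := by linarith
    have hmain := hPR n N B κ x y hn1 hB1 h4B hCond hbB hnM H P hH1 hP hdeg hcoef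
    set v : ℝ := ‖MvPolynomial.aeval (fun k => ((vG κ x y N k : ℝ) : ℂ)) P‖ with hv
    set W : ℝ := ((c : ℝ) * B) ^ (c * n) with hW
    set e1 : ℕ := q0 * n + 2 * s * (n + c3 s D) with he1
    set e2 : ℕ := q0 * n + (2 * s + 1) * (n + c3 s D) with he2
    set f : ℕ := MM s D * q0 * n - n with hf
    have hSS : SS s D q0 c n N B = (N : ℝ) ^ e1 * W := rfl
    have hEE : EE s D q0 c n N B = (N : ℝ) ^ e2 * W / (N : ℝ) ^ f := rfl
    have hW0 : 0 ≤ W := by positivity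
    have hWn : W ^ (m + 1) ≤ (N : ℝ) ^ n := by
      have h1 : W ^ (m + 1) = ((((c * B) ^ (c * (m + 1)) : ℕ) : ℝ)) ^ n := by
        rw [hW]
        push_cast
        rw [← pow_mul, ← pow_mul]
        congr 1
        ring
      rw [h1]
      exact pow_le_pow_left₀ (Nat.cast_nonneg _) (by exact_mod_cast hcB) n
    have hM1 : MM s D - 1 = m + 1 := by omega
    have hM2 : MM s D - 2 = m := by omega
    rw [hM1, hM2, hSS, hEE] at hmain
    -- the exponents
    have hexp : m * e1 + e2 + 2 * n = f + c5 := by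
      have h1 : n ≤ MM s D * q0 * n := by
        have : 1 ≤ MM s D * q0 := Nat.mul_pos (by omega) (by omega)
        calc n = 1 * n := (one_mul n).symm
          _ ≤ _ := Nat.mul_le_mul_right n this
      have h2 : m * e1 + e2 + 2 * n + n = MM s D * q0 * n + c5 := by
        rw [he1, he2, hc5, hm, hq0]
        ring
      omega
    have hprod : ((N : ℝ) ^ e1 * W) ^ m * ((N : ℝ) ^ e2 * W / (N : ℝ) ^ f) * (N : ℝ) ^ (2 * n) =
        (N : ℝ) ^ c5 * W ^ (m + 1) := by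
      have h1 : (N : ℝ) ^ (m * e1 + e2 + 2 * n) = (N : ℝ) ^ f * (N : ℝ) ^ c5 := by
        rw [hexp, pow_add]
      have h2 : ((N : ℝ) ^ e1 * W) ^ m * ((N : ℝ) ^ e2 * W / (N : ℝ) ^ f) * (N : ℝ) ^ (2 * n) =
          (N : ℝ) ^ (m * e1 + e2 + 2 * n) * W ^ (m + 1) / (N : ℝ) ^ f := by
        rw [mul_pow, ← pow_mul, pow_add, pow_add, pow_succ, Nat.mul_comm m e1]
        ring
      rw [h2, h1]
      have hNf : (N : ℝ) ^ f ≠ 0 := (pow_pos hN0 f).ne'
      field_simp
    have hsmall : ((N : ℝ) ^ e1 * W) ^ m * ((N : ℝ) ^ e2 * W / (N : ℝ) ^ f) * (N : ℝ) ^ n ≤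
        (N : ℝ) ^ c5 := by
      have h1 : ((N : ℝ) ^ e1 * W) ^ m * ((N : ℝ) ^ e2 * W / (N : ℝ) ^ f) * (N : ℝ) ^ n *
          (N : ℝ) ^ n ≤ (N : ℝ) ^ c5 * (N : ℝ) ^ n := by
        have h2 : (N : ℝ) ^ (2 * n) = (N : ℝ) ^ n * (N : ℝ) ^ n := by
          rw [two_mul, pow_add]
        rw [h2, ← mul_assoc] at hprod
        rw [hprod]
        exact mul_le_mul_of_nonneg_left hWn (by positivity)
      exact le_of_mul_le_mul_right h1 (pow_pos hN0 n)
    set E : ℝ := ((N : ℝ) ^ e1 * W) ^ m * ((N : ℝ) ^ e2 * W / (N : ℝ) ^ f) with hE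
    have hE0 : 0 ≤ E := by positivity
    -- the second term is at most `1 / 2`
    have hNF' : (2 : ℝ) * F * (m + 2) ≤ N := by exact_mod_cast hNF
    have hhalf : 2 * (F * ((MM s D : ℕ) * H * E)) ≤ 1 := by
      have h1 : (2 : ℝ) * (F * ((MM s D : ℕ) * H * E)) * (N : ℝ) ^ n ≤ 1 * (N : ℝ) ^ n := by
        have h2 : (N : ℝ) ^ n = (N : ℝ) ^ (k + 1) * (N : ℝ) ^ c5 * N *
            (N : ℝ) ^ (MM s D * MM s D * (2 * s) + MM s D + 1) := by
          rw [hn, hc8, ← pow_add, ← pow_succ, ← pow_add]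
          congr 1
          ring
        have h3 : (1 : ℝ) ≤ (N : ℝ) ^ (MM s D * MM s D * (2 * s) + MM s D + 1) := one_le_pow₀ hN1
        have hmc : ((MM s D : ℕ) : ℝ) = m + 2 := by
          rw [hm]
          push_cast
          ring
        calc (2 : ℝ) * (F * ((MM s D : ℕ) * H * E)) * (N : ℝ) ^ n
            = (2 * F * (m + 2)) * H * (E * (N : ℝ) ^ n) := by
              rw [hmc]
              ring
          _ ≤ N * (N : ℝ) ^ (k + 1) * (N : ℝ) ^ c5 := by
              refine mul_le_mul (mul_le_mul hNF' hk1 (by linarith) hN0.le) hsmall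
                (by positivity) (by positivity)
          _ ≤ (N * (N : ℝ) ^ (k + 1) * (N : ℝ) ^ c5) *
              (N : ℝ) ^ (MM s D * MM s D * (2 * s) + MM s D + 1) :=
              le_mul_of_one_le_right (by positivity) h3
          _ = 1 * (N : ℝ) ^ n := by
              rw [h2]
              ring
      exact le_of_mul_le_mul_right h1 (pow_pos hN0 n)
    have hv0 : 0 ≤ v := norm_nonneg _
    have hfirst : 1 ≤ 2 * F * ((N : ℝ) ^ e1 * W) ^ (m + 1) * v := by
      have h1 : (1 : ℝ) ≤ F * (((N : ℝ) ^ e1 * W) ^ (m + 1) * v) + F * ((MM s D : ℕ) * H * E) := by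
        calc (1 : ℝ) ≤ _ := hmain
          _ = _ := by
            rw [hE]
            ring
      nlinarith
    -- the size of the first factor
    have hsize : 2 * F * ((N : ℝ) ^ e1 * W) ^ (m + 1) ≤
        H ^ (((a + (a + a * c8 + b') : ℕ) : ℝ)) := by
      rw [Real.rpow_natCast]
      have h1 : (2 : ℝ) * F ≤ N := by
        have : (2 : ℝ) * F * 1 ≤ 2 * F * (m + 2) :=
          mul_le_mul_of_nonneg_left (by linarith [Nat.cast_nonneg (α := ℝ) m]) (by positivity)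
        linarith
      have h2 : ((N : ℝ) ^ e1 * W) ^ (m + 1) ≤ (N : ℝ) ^ (e1 * (m + 1)) * (N : ℝ) ^ n := by
        rw [mul_pow, ← pow_mul]
        exact mul_le_mul_of_nonneg_left hWn (by positivity)
      have h3 : 1 + e1 * (m + 1) + n = k * a + (a + a * c8 + b') := by
        rw [he1, hn, ha, hb']
        ring
      calc 2 * F * ((N : ℝ) ^ e1 * W) ^ (m + 1)
          ≤ N * ((N : ℝ) ^ (e1 * (m + 1)) * (N : ℝ) ^ n) :=
            mul_le_mul h1 h2 (by positivity) hN0.le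
        _ = (N : ℝ) ^ (1 + e1 * (m + 1) + n) := by
            rw [pow_add, pow_add, pow_one]
            ring
        _ = ((N : ℝ) ^ k) ^ a * (N : ℝ) ^ (a + a * c8 + b') := by
            rw [h3, pow_add, pow_mul]
        _ ≤ H ^ a * H ^ (a + a * c8 + b') :=
            mul_le_mul (pow_le_pow_left₀ (by positivity) hk2 a)
              (pow_le_pow_left₀ hN0.le hH _) (by positivity) (by positivity)
        _ = _ := by rw [← pow_add]
    calc (1 : ℝ) ≤ _ := hfirst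
      _ ≤ _ := mul_le_mul_of_nonneg_right hsize hv0

theorem pf_PR2 : T_PR2 := by
  intro hPR s D
  exact pr2_gen s D (fun κ x y => Dis κ (fun k => (x k : ℚ)) (fun k => (y k : ℚ))) (hPR s D)

theorem pf_PR22 : T_PR22 := by
  intro hPR s D
  exact pr2_gen s D (fun κ x y => Dis2 κ (fun k => (x k : ℚ)) (fun k => (y k : ℚ))) (hPR s D)

end Pool.Agent.H85.GP
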