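import Pool.Agent.H72.GP.Targets

/-!
Row CYC of the board gpo_modules (port) (MP_3cf473_nt): if the determinant vanishes, the constant
polynomial `1` is a combination of fewer derivatives.
-/

set_option autoImplicit false

open Polynomial Finset

namespace Pool.Agent.H85.GP

open Pool.Agent.H72.GP
open Pool.Agent.H85.PS (II MM Vec Sup Deg Jf)

section

/-- linearly independent rows over a domain have a nonzero minor -/
theorem cyc_minor {R ι : Type*} [CommRing R] [IsDomain R] : ∀ (l : ℕ) (v : Fin l → ι → R),
    LinearIndependent R v →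
    ∃ J : Fin l → ι, Matrix.det (Matrix.of fun i j : Fin l => v i (J j)) ≠ 0 := by
  intro l
  induction l with
  | zero =>
    intro v _
    refine ⟨fun i => i.elim0, ?_⟩
    simp
  | succ l ih =>
    intro v hv
    have hv' : LinearIndependent R (fun i : Fin l => v i.succ) :=
      hv.comp Fin.succ (Fin.succ_injective l)
    obtain ⟨J, hJ⟩ := ih _ hv'
    by_contra hcon
    push Not at hcon
    have key : ∀ e : ι, ∑ i : Fin (l + 1), ((-1 : R) ^ (i : ℕ) *
        Matrix.det (Matrix.of fun i' j' : Fin l => v (i.succAbove i') (J j'))) * v i e = 0 := by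
      intro e
      have h := hcon (Fin.cons e J)
      rw [Matrix.det_succ_column_zero] at h
      rw [← h]
      refine Finset.sum_congr rfl fun i _ => ?_
      have h1 : (Matrix.of fun i j : Fin (l + 1) => v i ((Fin.cons e J : Fin (l + 1) → ι) j)) i 0
          = v i e := by simp
      have h2 : (Matrix.of fun i j : Fin (l + 1) =>
          v i ((Fin.cons e J : Fin (l + 1) → ι) j)).submatrix i.succAbove Fin.succ =
          Matrix.of fun i' j' : Fin l => v (i.succAbove i') (J j') := by
        ext i' j'
        simp
      rw [h1, h2]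
      ring
    have h0 := Fintype.linearIndependent_iff.1 hv (fun i => (-1 : R) ^ (i : ℕ) *
        Matrix.det (Matrix.of fun i' j' : Fin l => v (i.succAbove i') (J j'))) (by
          funext e
          have := key e
          simpa [Finset.sum_apply] using this) 0
    apply hJ
    simpa using h0

theorem cyc_mem_II {s D : ℕ} (e : Fin s → ℕ) (h : ∑ k, e k ≤ D) : e ∈ II s D := by
  unfold II
  refine Finset.mem_filter.2 ⟨?_, h⟩
  refine Fintype.mem_piFinset.2 fun k => Finset.mem_range.2 ?_
  have : e k ≤ ∑ k, e k := Finset.single_le_sum (f := e) (fun _ _ => Nat.zero_le _) (mem_univ k)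
  omega

theorem cyc_sup {s D : ℕ} (S : Sy s) (A : Vec s) (hA : Sup D A) : Sup D (nab S A) := by
  intro e he
  unfold nab
  rw [hA e he]
  simp only [derivative_zero, mul_zero, zero_add]
  refine Finset.sum_eq_zero fun k _ => ?_
  have : A (e + Pi.single k 1) = 0 := by
    apply hA
    have : ∑ j, (e + Pi.single k 1 : Fin s → ℕ) j = ∑ j, e j + 1 := by
      simp [Finset.sum_add_distrib, Finset.sum_pi_single']
    omega
  rw [this, mul_zero]

theorem cyc_supI {s D : ℕ} (S : Sy s) (A : Vec s) (hA : Sup D A) (i : ℕ) :
    Sup D (nabI S i A) := by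
  induction i with
  | zero => exact hA
  | succ i ih =>
    have : nabI S (i + 1) A = nab S (nabI S i A) := by
      unfold nabI
      rw [Function.iterate_succ_apply']
    rw [this]
    exact cyc_sup S _ ih

/-- the vanishing determinant gives a relation between the first derivatives -/
theorem cyc_dep {s D : ℕ} (S : Sy s) (A : Vec s) (hA : Sup D A) (h : Dt S D A = 0) :
    ¬ LinearIndependent ℚ[X] (fun i : Fin (MM s D) => nabI S i A) := by
  intro hli
  unfold Pool.Agent.H72.GP.Dt at h
  obtain ⟨w, hw, hw0⟩ := Matrix.exists_vecMul_eq_zero_iff.2 h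
  apply hw
  have hz : ∑ i, w i • nabI S (i : ℕ) A = 0 := by
    funext e
    rw [Finset.sum_apply]
    by_cases he : e ∈ II s D
    · obtain ⟨j, hj⟩ : ∃ j, Jf s D j = e :=
        ⟨(II s D).equivFin ⟨e, he⟩, by simp [Jf]⟩
      have := congrFun hw0 j
      simp only [Matrix.vecMul, dotProduct, Matrix.of_apply, Pi.zero_apply] at this
      rw [← hj]
      simpa [smul_eq_mul] using this
    · refine Finset.sum_eq_zero fun i _ => ?_
      have h1 : D < ∑ k, e k := by
        by_contra hh
        exact he (cyc_mem_II e (not_lt.1 hh))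
      have := cyc_supI S A hA i e h1
      simp [this]
  funext i
  exact Fintype.linearIndependent_iff.1 hli w hz i

theorem pf_CYC (h1 : T_LEI) (h2 : T_ONE) : T_CYC := by
  intro s D S hInd A hA hA0 hD
  have hnab_add : ∀ x y : Vec s, nab S (x + y) = nab S x + nab S y := fun x y =>
    (h1 s S 0 x y).2
  have hnab_zero : nab S (0 : Vec s) = 0 := by
    have := hnab_add 0 0
    rw [add_zero] at this
    simpa using this
  have hnab_smul : ∀ (g : ℚ[X]) (x : Vec s),
      nab S (g • x) = (S.th * derivative g) • x + g • nab S x := by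
    intro g x
    have := (h1 s S g x 0).1
    have h3 : (g • x : Vec s) = fun e => g * x e := by
      funext e
      rfl
    rw [h3, this]
    funext e
    rfl
  have hsucc : ∀ i : ℕ, nab S (nabI S i A) = nabI S (i + 1) A := by
    intro i
    unfold nabI
    rw [Function.iterate_succ_apply']
  have hne : ∃ l : ℕ, ¬ LinearIndependent ℚ[X] (fun i : Fin (l + 1) => nabI S (i : ℕ) A) := by
    have hdep := cyc_dep S A hA hD
    have hM : 0 < MM s D := Finset.card_pos.2 ⟨0, cyc_mem_II 0 (by simp)⟩
    refine ⟨MM s D - 1, ?_⟩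
    have : MM s D - 1 + 1 = MM s D := by omega
    rw [this]
    exact hdep
  classical
  obtain ⟨l, hl, hmin⟩ : ∃ l : ℕ, ¬ LinearIndependent ℚ[X]
      (fun i : Fin (l + 1) => nabI S (i : ℕ) A) ∧ ∀ l' < l, LinearIndependent ℚ[X]
      (fun i : Fin (l' + 1) => nabI S (i : ℕ) A) :=
    ⟨Nat.find hne, Nat.find_spec hne, fun l' hl' => not_not.1 (Nat.find_min hne hl')⟩
  have hlM : l < MM s D := by
    by_contra hh
    have hM : 0 < MM s D := Finset.card_pos.2 ⟨0, cyc_mem_II 0 (by simp)⟩
    have h3 := hmin (MM s D - 1) (by omega)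
    have : MM s D - 1 + 1 = MM s D := by omega
    rw [this] at h3
    exact cyc_dep S A hA hD h3
  have hli : LinearIndependent ℚ[X] (fun i : Fin l => nabI S (i : ℕ) A) := by
    rcases Nat.eq_zero_or_pos l with h0 | hpos
    · subst h0
      exact linearIndependent_empty_type
    · have h3 := hmin (l - 1) (by omega)
      have : l - 1 + 1 = l := by omega
      rw [this] at h3
      exact h3
  set Sp : Submodule ℚ[X] (Vec s) :=
    Submodule.span ℚ[X] (Set.range fun i : Fin l => nabI S (i : ℕ) A) with hSp
  -- the first dependent derivative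
  obtain ⟨p, hp0, hp⟩ : ∃ p : ℚ[X], p ≠ 0 ∧ p • nabI S l A ∈ Sp := by
    obtain ⟨g, hg, i, hi⟩ := Fintype.not_linearIndependent_iff.1 hl
    rw [Fin.sum_univ_castSucc] at hg
    simp only [Fin.val_castSucc, Fin.val_last] at hg
    refine ⟨g (Fin.last l), ?_, ?_⟩
    · intro h0
      rw [h0, zero_smul, add_zero] at hg
      have h3 := Fintype.linearIndependent_iff.1 hli (fun i => g i.castSucc) hg
      induction i using Fin.lastCases with
      | last => exact hi h0
      | cast i => exact hi (h3 i)
    · have h3 : g (Fin.last l) • nabI S l A =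
          - ∑ i : Fin l, g i.castSucc • nabI S (i : ℕ) A := by
        rw [eq_neg_iff_add_eq_zero, add_comm]
        exact hg
      rw [h3]
      refine Submodule.neg_mem _ (Submodule.sum_mem _ fun i _ => ?_)
      exact Submodule.smul_mem _ _ (Submodule.subset_span ⟨i, rfl⟩)
  have hstab : ∀ x ∈ Sp, p • nab S x ∈ Sp := by
    intro x hx
    induction hx using Submodule.span_induction with
    | mem x hx =>
      obtain ⟨i, rfl⟩ := hx
      show p • nab S (nabI S (i : ℕ) A) ∈ Sp
      rw [hsucc]
      rcases Nat.lt_or_ge ((i : ℕ) + 1) l with h3 | h3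
      · exact Submodule.smul_mem _ _ (Submodule.subset_span ⟨⟨(i : ℕ) + 1, h3⟩, rfl⟩)
      · have : (i : ℕ) + 1 = l := by
          have := i.2
          omega
        rw [this]
        exact hp
    | zero =>
      rw [hnab_zero, smul_zero]
      exact Submodule.zero_mem _
    | add x y _ _ hx hy =>
      rw [hnab_add, smul_add]
      exact Submodule.add_mem _ hx hy
    | smul r x hx hx' =>
      rw [hnab_smul, smul_add]
      refine Submodule.add_mem _ ?_ ?_
      · exact Submodule.smul_mem _ _ (Submodule.smul_mem _ _ hx)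
      · rw [smul_comm]
        exact Submodule.smul_mem _ _ hx'
  have hSup : ∀ x ∈ Sp, Sup D x := by
    intro x hx
    induction hx using Submodule.span_induction with
    | mem x hx =>
      obtain ⟨i, rfl⟩ := hx
      exact cyc_supI S A hA i
    | zero => intro e _; rfl
    | add x y _ _ hx hy =>
      intro e he
      rw [Pi.add_apply, hx e he, hy e he, add_zero]
    | smul r x _ hx =>
      intro e he
      rw [Pi.smul_apply, hx e he, smul_zero]
  -- the saturation
  let W : Submodule ℚ[X] (Vec s) :=
    { carrier := {w | ∃ g : ℚ[X], g ≠ 0 ∧ g • w ∈ Sp}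
      add_mem' := by
        rintro x y ⟨g, hg, hx⟩ ⟨h, hh, hy⟩
        refine ⟨g * h, mul_ne_zero hg hh, ?_⟩
        rw [smul_add]
        refine Submodule.add_mem _ ?_ ?_
        · rw [mul_comm, mul_smul]
          exact Submodule.smul_mem _ _ hx
        · rw [mul_smul]
          exact Submodule.smul_mem _ _ hy
      zero_mem' := ⟨1, one_ne_zero, by rw [smul_zero]; exact Submodule.zero_mem _⟩
      smul_mem' := by
        rintro c x ⟨g, hg, hx⟩
        refine ⟨g, hg, ?_⟩
        rw [smul_comm]
        exact Submodule.smul_mem _ _ hx }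
  have hW : ∀ w, w ∈ W ↔ ∃ g : ℚ[X], g ≠ 0 ∧ g • w ∈ Sp := fun w => Iff.rfl
  obtain ⟨g, hg0, hg⟩ := h2 s D S hInd W (by
      intro w hw
      obtain ⟨g, hg, hx⟩ := (hW w).1 hw
      intro e he
      have := hSup _ hx e he
      rw [Pi.smul_apply, smul_eq_mul] at this
      exact (mul_eq_zero.1 this).resolve_left hg) (by
      intro w hw
      obtain ⟨g, hg, hx⟩ := (hW w).1 hw
      refine (hW _).2 ⟨g * (p * g), mul_ne_zero hg (mul_ne_zero hp0 hg), ?_⟩
      have h3 := hstab _ hx
      rw [hnab_smul, smul_add] at h3
      have h4 : g • (p • ((S.th * derivative g) • w)) ∈ Sp := by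
        have : g • (p • ((S.th * derivative g) • w)) = (p * (S.th * derivative g)) • (g • w) := by
          simp only [smul_smul]
          congr 1
          ring
        rw [this]
        exact Submodule.smul_mem _ _ hx
      have h5 := Submodule.sub_mem _ (Submodule.smul_mem _ g h3) h4
      have h6 : g • (p • (S.th * derivative g) • w + p • g • nab S w) -
          g • p • (S.th * derivative g) • w = (g * (p * g)) • nab S w := by
        rw [smul_add, add_sub_cancel_left, mul_smul, mul_smul]
      rw [← h6]
      exact h5) (by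
      intro hbot
      apply hA0
      have hAW : A ∈ W := by
        rcases Nat.eq_zero_or_pos l with h0 | hpos
        · refine (hW _).2 ⟨p, hp0, ?_⟩
          have : nabI S l A = A := by rw [h0]; rfl
          rw [this] at hp
          exact hp
        · refine (hW _).2 ⟨1, one_ne_zero, ?_⟩
          rw [one_smul]
          exact Submodule.subset_span ⟨⟨0, hpos⟩, rfl⟩
      rw [hbot] at hAW
      exact (Submodule.mem_bot _).1 hAW)
  obtain ⟨h, hh0, hh⟩ := (hW _).1 hg
  obtain ⟨q, hq⟩ := (Submodule.mem_span_range_iff_exists_fun ℚ[X]).1 hh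
  have hq' : ∀ e, ∑ i, q i * nabI S (i : ℕ) A e = if e = 0 then h * g else 0 := by
    intro e
    have := congrFun hq e
    rw [Finset.sum_apply] at this
    simp only [Pi.smul_apply, smul_eq_mul] at this
    rw [this]
    split_ifs <;> simp
  have hG : h * g ≠ 0 := mul_ne_zero hh0 hg0
  obtain ⟨J, hJ⟩ := cyc_minor l _ hli
  set N : Matrix (Fin l) (Fin l) ℚ[X] := Matrix.of fun i j : Fin l => nabI S (i : ℕ) A (J j)
    with hN
  set ρ : Fin l → ℚ[X] := fun j => if J j = 0 then 1 else 0 with hρ
  have hqN : Matrix.vecMul q N = (h * g) • ρ := by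
    funext j
    simp only [Matrix.vecMul, dotProduct, hN, Matrix.of_apply, Pi.smul_apply, hρ, smul_eq_mul]
    rw [hq']
    split_ifs <;> simp
  have hdq : N.det • q = (h * g) • Matrix.vecMul ρ N.adjugate := by
    rw [← Matrix.smul_vecMul, ← hqN, Matrix.vecMul_vecMul, Matrix.mul_adjugate,
      Matrix.vecMul_smul, Matrix.vecMul_one]
  refine ⟨l, J, Matrix.vecMul ρ N.adjugate, hlM, hJ, ?_⟩
  intro e
  apply mul_left_cancel₀ hG
  have h7 : ∀ i, (h * g) * Matrix.vecMul ρ N.adjugate i = N.det * q i := by
    intro i
    have := congrFun hdq i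
    simp only [Pi.smul_apply, smul_eq_mul] at this
    exact this.symm
  calc (h * g) * ∑ i, Matrix.vecMul ρ N.adjugate i * nabI S (i : ℕ) A e
      = ∑ i, ((h * g) * Matrix.vecMul ρ N.adjugate i) * nabI S (i : ℕ) A e := by
        rw [Finset.mul_sum]
        exact Finset.sum_congr rfl fun i _ => by ring
    _ = ∑ i, (N.det * q i) * nabI S (i : ℕ) A e :=
        Finset.sum_congr rfl fun i _ => by rw [h7]
    _ = N.det * ∑ i, q i * nabI S (i : ℕ) A e := by
        rw [Finset.mul_sum]
        exact Finset.sum_congr rfl fun i _ => by ring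
    _ = (h * g) * if e = 0 then N.det else 0 := by
        rw [hq']
        split_ifs
        · ring
        · simp

end

end Pool.Agent.H85.GP
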